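import Mathlib

open scoped ZeroAtInfty

namespace Pool.Agent.MP_7f766c_an

/-- Piecewise conjugacy of two classical multivariable systems `(X, σ)`, `(Y, τ)` with the same
number `n` of maps (a `CocompactMap X X` is a continuous proper self-map of `X`). -/
def PiecewiseConjugate {X Y : Type} [TopologicalSpace X] [TopologicalSpace Y] {n : ℕ}
    (σ : Fin n → CocompactMap X X) (τ : Fin n → CocompactMap Y Y) : Prop :=
  ∃ (γ : X ≃ₜ Y) (V : Equiv.Perm (Fin n) → Set X), (∀ π, IsOpen (V π)) ∧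
    (⋃ π, V π) = Set.univ ∧ ∀ π, ∀ x ∈ V π, ∀ i, τ i (γ x) = γ (σ (π i) x)

/-- Unitary equivalence of the C*-correspondences of `(C₀(X), α)` and `(C₀(Y), β)`, where
`α i f = f ∘ σ i`, `β j f = f ∘ τ j`: a `*`-isomorphism `ρ : C₀(X) → C₀(Y)` and a surjective linear
map `U : C₀(X)^n → C₀(Y)^n` with `⟨U ξ, U η⟩ = ρ ⟨ξ, η⟩` and `U (φ(a) ξ) = φ(ρ(a)) U ξ`. -/
def UnitarilyEquivalent {X Y : Type} [TopologicalSpace X] [TopologicalSpace Y] {n : ℕ}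
    (σ : Fin n → CocompactMap X X) (τ : Fin n → CocompactMap Y Y) : Prop :=
  ∃ (ρ : C₀(X, ℂ) ≃⋆ₐ[ℂ] C₀(Y, ℂ)) (U : (Fin n → C₀(X, ℂ)) →ₗ[ℂ] (Fin n → C₀(Y, ℂ))),
    Function.Surjective U ∧
    (∀ ξ η : Fin n → C₀(X, ℂ), ∑ j, star (U ξ j) * U η j = ρ (∑ i, star (ξ i) * η i)) ∧
    ∀ (a : C₀(X, ℂ)) (ξ : Fin n → C₀(X, ℂ)) (j : Fin n),
      U (fun i => a.comp (σ i) * ξ i) j = (ρ a).comp (τ j) * U ξ j

end Pool.Agent.MP_7f766c_an
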