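import Pool.Agent.H57.DK.Lift

open Set Topology

namespace Pool.Agent.H57.DK

abbrev P4 := Equiv.Perm (Fin 4)

/-- the simplex with vertices the permutations -/
def SS : Set (P4 → ℝ) := stdSimplex ℝ P4

lemma convex_SS : Convex ℝ SS := convex_stdSimplex ℝ P4

/-- face on which `π i = j` for all permutations in the support -/
def FF (i j : Fin 4) : Set (P4 → ℝ) := {x | x ∈ SS ∧ ∀ π : P4, x π ≠ 0 → π i = j}

lemma convex_FF (i j : Fin 4) : Convex ℝ (FF i j) := by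
  intro x hx y hy a b ha hb hab
  refine ⟨convex_SS hx.1 hy.1 ha hb hab, fun π hπ => ?_⟩
  by_contra hne
  have h1 : x π = 0 := by by_contra h; exact hne (hx.2 π h)
  have h2 : y π = 0 := by by_contra h; exact hne (hy.2 π h)
  apply hπ
  simp [h1, h2]

/-- face on which all permutations in the support map `{κ 0, κ 1}` to `{ρ 0, ρ 1}` -/
def GG (κ ρ : P4) : Set (P4 → ℝ) :=
  {x | x ∈ SS ∧ ∀ π : P4, x π ≠ 0 → ∀ i, i ∈ ({κ 0, κ 1} : Finset (Fin 4)) ↔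
    π i ∈ ({ρ 0, ρ 1} : Finset (Fin 4))}

lemma convex_GG (κ ρ : P4) : Convex ℝ (GG κ ρ) := by
  intro x hx y hy a b ha hb hab
  refine ⟨convex_SS hx.1 hy.1 ha hb hab, fun π hπ => ?_⟩
  by_contra hne
  have h1 : x π = 0 := by by_contra h; exact hne (hx.2 π h)
  have h2 : y π = 0 := by by_contra h; exact hne (hy.2 π h)
  apply hπ
  simp [h1, h2]

/-- vertices -/
noncomputable def vx (π : P4) : P4 → ℝ := Pi.single π 1

lemma vx_mem (π : P4) : vx π ∈ SS := single_mem_stdSimplex ℝ π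

lemma vx_support {π ρ : P4} (h : vx π ρ ≠ 0) : ρ = π := by
  by_contra hne
  exact h (Pi.single_eq_of_ne hne _)

lemma vx_FF {π : P4} {i j : Fin 4} (h : π i = j) : vx π ∈ FF i j :=
  ⟨vx_mem π, fun ρ hρ => by rw [vx_support hρ]; exact h⟩

lemma vx_GG {π κ ρ : P4} (h : ∀ i, i ∈ ({κ 0, κ 1} : Finset (Fin 4)) ↔
    π i ∈ ({ρ 0, ρ 1} : Finset (Fin 4))) : vx π ∈ GG κ ρ :=
  ⟨vx_mem π, fun σ hσ => by rw [vx_support hσ]; exact h⟩

/-- the hypotheses on `u` -/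
structure Blocky (u : (P4 → ℝ) → Matrix (Fin 4) (Fin 4) ℂ) : Prop where
  cont : ContinuousOn u SS
  det : ∀ x ∈ SS, (u x).det ≠ 0
  block : ∀ x ∈ SS, ∀ A B : Finset (Fin 4), (∀ π : P4, x π ≠ 0 → ∀ i, i ∈ A ↔ π i ∈ B) →
    ∀ i j, ¬ (i ∈ A ↔ j ∈ B) → u x j i = 0

lemma det_block (M : Matrix (Fin 4) (Fin 4) ℂ) (h02 : M 0 2 = 0) (h03 : M 0 3 = 0)
    (h12 : M 1 2 = 0) (h13 : M 1 3 = 0) (h20 : M 2 0 = 0) (h21 : M 2 1 = 0)
    (h30 : M 3 0 = 0) (h31 : M 3 1 = 0) :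
    M.det = (M 0 0 * M 1 1 - M 0 1 * M 1 0) * (M 2 2 * M 3 3 - M 2 3 * M 3 2) := by
  rw [Matrix.det_succ_row_zero]
  simp only [Fin.sum_univ_four, Matrix.det_fin_three, Matrix.submatrix_apply, Fin.succAbove]
  simp
  rw [h02, h03, h12, h13, h20, h21, h30, h31]
  ring

lemma Blocky.row {u : (P4 → ℝ) → Matrix (Fin 4) (Fin 4) ℂ} (hu : Blocky u) {i j : Fin 4}
    {x : P4 → ℝ} (hx : x ∈ FF i j) {i' : Fin 4} (hi : i' ≠ i) : u x j i' = 0 := by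
  apply hu.block x hx.1 {i} {j}
  · intro π hπ k
    have h1 := hx.2 π hπ
    simp only [Finset.mem_singleton]
    constructor
    · rintro rfl; exact h1
    · intro h; rw [← h1] at h; exact π.injective h
  · simp [hi]

lemma Blocky.col {u : (P4 → ℝ) → Matrix (Fin 4) (Fin 4) ℂ} (hu : Blocky u) {i j : Fin 4}
    {x : P4 → ℝ} (hx : x ∈ FF i j) {j' : Fin 4} (hj : j' ≠ j) : u x j' i = 0 := by
  apply hu.block x hx.1 {i} {j}
  · intro π hπ k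
    have h1 := hx.2 π hπ
    simp only [Finset.mem_singleton]
    constructor
    · rintro rfl; exact h1
    · intro h; rw [← h1] at h; exact π.injective h
  · simp [hj]

lemma Blocky.ne {u : (P4 → ℝ) → Matrix (Fin 4) (Fin 4) ℂ} (hu : Blocky u) {i j : Fin 4}
    {x : P4 → ℝ} (hx : x ∈ FF i j) : u x j i ≠ 0 := by
  intro h0
  apply hu.det x hx.1
  apply Matrix.det_eq_zero_of_row_eq_zero j
  intro i'
  by_cases h : i' = i
  · rw [h]; exact h0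
  · exact hu.row hx h

/-- the reindexed matrix -/
def mm (u : (P4 → ℝ) → Matrix (Fin 4) (Fin 4) ℂ) (κ ρ : P4) (x : P4 → ℝ) :
    Matrix (Fin 4) (Fin 4) ℂ := (u x).submatrix ρ κ

lemma mm_apply (u : (P4 → ℝ) → Matrix (Fin 4) (Fin 4) ℂ) (κ ρ : P4) (x : P4 → ℝ)
    (a b : Fin 4) : mm u κ ρ x a b = u x (ρ a) (κ b) := rfl

lemma det_mm (u : (P4 → ℝ) → Matrix (Fin 4) (Fin 4) ℂ) (κ ρ : P4) (x : P4 → ℝ) :
    (mm u κ ρ x).det = ((Equiv.Perm.sign ρ : ℤ) : ℂ) * ((Equiv.Perm.sign κ : ℤ) : ℂ) *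
      (u x).det := by
  have h1 : mm u κ ρ x = ((u x).submatrix id κ).submatrix ρ id := rfl
  rw [h1, Matrix.det_permute, Matrix.det_permute']
  ring

lemma mem_pair_iff (κ : P4) (b : Fin 4) :
    κ b ∈ ({κ 0, κ 1} : Finset (Fin 4)) ↔ b = 0 ∨ b = 1 := by
  simp [κ.injective.eq_iff]

lemma Blocky.off {u : (P4 → ℝ) → Matrix (Fin 4) (Fin 4) ℂ} (hu : Blocky u) {κ ρ : P4}
    {x : P4 → ℝ} (hx : x ∈ GG κ ρ) {a b : Fin 4} (hab : ¬ ((b = 0 ∨ b = 1) ↔ (a = 0 ∨ a = 1))) :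
    mm u κ ρ x a b = 0 := by
  rw [mm_apply]
  apply hu.block x hx.1 _ _ hx.2
  rw [mem_pair_iff, mem_pair_iff]
  exact hab

/-- upper and lower block determinants -/
def D1 (u : (P4 → ℝ) → Matrix (Fin 4) (Fin 4) ℂ) (κ ρ : P4) (x : P4 → ℝ) : ℂ :=
  u x (ρ 0) (κ 0) * u x (ρ 1) (κ 1) - u x (ρ 0) (κ 1) * u x (ρ 1) (κ 0)

def D2 (u : (P4 → ℝ) → Matrix (Fin 4) (Fin 4) ℂ) (κ ρ : P4) (x : P4 → ℝ) : ℂ :=
  u x (ρ 2) (κ 2) * u x (ρ 3) (κ 3) - u x (ρ 2) (κ 3) * u x (ρ 3) (κ 2)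

lemma Blocky.det_eq {u : (P4 → ℝ) → Matrix (Fin 4) (Fin 4) ℂ} (hu : Blocky u) {κ ρ : P4}
    {x : P4 → ℝ} (hx : x ∈ GG κ ρ) :
    ((Equiv.Perm.sign ρ : ℤ) : ℂ) * ((Equiv.Perm.sign κ : ℤ) : ℂ) * (u x).det =
      D1 u κ ρ x * D2 u κ ρ x := by
  rw [← det_mm]
  exact det_block _ (hu.off hx (by decide)) (hu.off hx (by decide)) (hu.off hx (by decide))
    (hu.off hx (by decide)) (hu.off hx (by decide)) (hu.off hx (by decide))
    (hu.off hx (by decide)) (hu.off hx (by decide))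

lemma entry_cont {u : (P4 → ℝ) → Matrix (Fin 4) (Fin 4) ℂ} (hu : Blocky u) (a b : Fin 4) :
    ContinuousOn (fun x => u x a b) SS := by
  have h : Continuous (fun M : Matrix (Fin 4) (Fin 4) ℂ => M a b) :=
    (continuous_apply b).comp (continuous_apply a)
  exact h.comp_continuousOn hu.cont

lemma sign_ne (ρ : P4) : ((Equiv.Perm.sign ρ : ℤ) : ℂ) ≠ 0 := by
  rcases Int.units_eq_one_or (Equiv.Perm.sign ρ) with h | h <;> rw [h] <;> simp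

lemma Blocky.D1_ne {u : (P4 → ℝ) → Matrix (Fin 4) (Fin 4) ℂ} (hu : Blocky u) {κ ρ : P4}
    {x : P4 → ℝ} (hx : x ∈ GG κ ρ) : D1 u κ ρ x ≠ 0 ∧ D2 u κ ρ x ≠ 0 := by
  have h := hu.det_eq hx
  have h1 : ((Equiv.Perm.sign ρ : ℤ) : ℂ) * ((Equiv.Perm.sign κ : ℤ) : ℂ) * (u x).det ≠ 0 :=
    mul_ne_zero (mul_ne_zero (sign_ne ρ) (sign_ne κ)) (hu.det x hx.1)
  rw [h] at h1
  exact ⟨left_ne_zero_of_mul h1, right_ne_zero_of_mul h1⟩

lemma FF_inter_GG1 {κ ρ : P4} {x : P4 → ℝ} (h0 : x ∈ FF (κ 0) (ρ 0)) (h1 : x ∈ FF (κ 1) (ρ 1)) :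
    x ∈ GG κ ρ := by
  refine ⟨h0.1, fun π hπ i => ?_⟩
  have e0 := h0.2 π hπ
  have e1 := h1.2 π hπ
  simp only [Finset.mem_insert, Finset.mem_singleton]
  rw [← e0, ← e1, π.injective.eq_iff, π.injective.eq_iff]

lemma FF_inter_GG2 {κ ρ : P4} {x : P4 → ℝ} (h0 : x ∈ FF (κ 0) (ρ 1)) (h1 : x ∈ FF (κ 1) (ρ 0)) :
    x ∈ GG κ ρ := by
  refine ⟨h0.1, fun π hπ i => ?_⟩
  have e0 := h0.2 π hπ
  have e1 := h1.2 π hπ
  simp only [Finset.mem_insert, Finset.mem_singleton]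
  rw [← e0, ← e1, π.injective.eq_iff, π.injective.eq_iff]
  tauto

/-- chosen logarithms -/
structure Lifts (u : (P4 → ℝ) → Matrix (Fin 4) (Fin 4) ℂ) (Λ : (P4 → ℝ) → ℂ)
    (θ : Fin 4 → Fin 4 → (P4 → ℝ) → ℂ) : Prop where
  cΛ : ContinuousOn Λ SS
  eΛ : ∀ x ∈ SS, Complex.exp (Λ x) = (u x).det
  cθ : ∀ i j, ContinuousOn (θ i j) (FF i j)
  eθ : ∀ i j, ∀ x ∈ FF i j, Complex.exp (θ i j x) = u x j i

lemma exists_perm (i j : Fin 4) : ∃ π : P4, π i = j := ⟨Equiv.swap i j, Equiv.swap_apply_left i j⟩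

lemma exists_lifts {u : (P4 → ℝ) → Matrix (Fin 4) (Fin 4) ℂ} (hu : Blocky u) :
    ∃ Λ θ, Lifts u Λ θ := by
  have hdet : ContinuousOn (fun x => (u x).det) SS := by
    have h : Continuous (fun M : Matrix (Fin 4) (Fin 4) ℂ => M.det) := continuous_id.matrix_det
    exact h.comp_continuousOn hu.cont
  obtain ⟨Λ, h1, h2⟩ := convex_lift convex_SS ⟨_, vx_mem 1⟩ hdet hu.det
  have hθ : ∀ i j, ∃ f : (P4 → ℝ) → ℂ, ContinuousOn f (FF i j) ∧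
      ∀ x ∈ FF i j, Complex.exp (f x) = u x j i := by
    intro i j
    obtain ⟨π, hπ⟩ := exists_perm i j
    exact convex_lift (convex_FF i j) ⟨_, vx_FF hπ⟩
      ((entry_cont hu j i).mono (fun x hx => hx.1)) (fun x hx => hu.ne hx)
  choose θ h3 h4 using hθ
  exact ⟨Λ, θ, ⟨h1, h2, h3, h4⟩⟩

/-- the defect function -/
noncomputable def ff (Λ : (P4 → ℝ) → ℂ) (θ : Fin 4 → Fin 4 → (P4 → ℝ) → ℂ) (π : P4) : ℂ :=
  Λ (vx π) - ∑ i, θ i (π i) (vx π)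

lemma exp_ff {u : (P4 → ℝ) → Matrix (Fin 4) (Fin 4) ℂ} (hu : Blocky u) {Λ : (P4 → ℝ) → ℂ}
    {θ : Fin 4 → Fin 4 → (P4 → ℝ) → ℂ} (hl : Lifts u Λ θ) (π : P4) :
    Complex.exp (ff Λ θ π) = ((Equiv.Perm.sign π : ℤ) : ℂ) := by
  unfold ff
  rw [Complex.exp_sub, Complex.exp_sum, hl.eΛ _ (vx_mem π)]
  have h1 : ∀ i, Complex.exp (θ i (π i) (vx π)) = u (vx π) (π i) i :=
    fun i => hl.eθ _ _ _ (vx_FF rfl)
  simp_rw [h1]
  have h2 : ∏ i, u (vx π) (π i) i ≠ 0 := by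
    rw [Finset.prod_ne_zero_iff]
    intro i _
    exact hu.ne (vx_FF rfl)
  rw [div_eq_iff h2, Matrix.det_apply']
  rw [Finset.sum_eq_single π]
  · intro σ _ hσ
    obtain ⟨i, hi⟩ : ∃ i, σ i ≠ π i := by
      by_contra h
      push Not at h
      exact hσ (Equiv.ext h)
    rw [Finset.prod_eq_zero (Finset.mem_univ i), mul_zero]
    exact hu.col (vx_FF rfl) hi
  · intro h; exact absurd (Finset.mem_univ _) h

lemma sum_reindex (κ : P4) (g : Fin 4 → ℂ) : ∑ i, g i = g (κ 0) + g (κ 1) + g (κ 2) + g (κ 3) := by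
  rw [← Equiv.sum_comp κ g, Fin.sum_univ_four]

/-- the square relation -/
lemma square {u : (P4 → ℝ) → Matrix (Fin 4) (Fin 4) ℂ} (hu : Blocky u) {Λ : (P4 → ℝ) → ℂ}
    {θ : Fin 4 → Fin 4 → (P4 → ℝ) → ℂ} (hl : Lifts u Λ θ) (κ ρ : P4) {π0 π1 π2 π3 : P4}
    (h0 : ∀ b, π0 (κ b) = ρ b)
    (h10 : π1 (κ 0) = ρ 1) (h11 : π1 (κ 1) = ρ 0) (h12 : π1 (κ 2) = ρ 2) (h13 : π1 (κ 3) = ρ 3)
    (h20 : π2 (κ 0) = ρ 0) (h21 : π2 (κ 1) = ρ 1) (h22 : π2 (κ 2) = ρ 3) (h23 : π2 (κ 3) = ρ 2)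
    (h30 : π3 (κ 0) = ρ 1) (h31 : π3 (κ 1) = ρ 0) (h32 : π3 (κ 2) = ρ 3) (h33 : π3 (κ 3) = ρ 2) :
    ff Λ θ π0 + ff Λ θ π3 = ff Λ θ π1 + ff Λ θ π2 := by
  have hG0 : vx π0 ∈ GG κ ρ := FF_inter_GG1 (vx_FF (h0 0)) (vx_FF (h0 1))
  have hG2 : vx π2 ∈ GG κ ρ := FF_inter_GG1 (vx_FF h20) (vx_FF h21)
  have hG1 : vx π1 ∈ GG κ ρ := FF_inter_GG2 (vx_FF h10) (vx_FF h11)
  have hG3 : vx π3 ∈ GG κ ρ := FF_inter_GG2 (vx_FF h30) (vx_FF h31)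
  have hsub : GG κ ρ ⊆ SS := fun x hx => hx.1
  have cD1 : ContinuousOn (D1 u κ ρ) (GG κ ρ) :=
    (((entry_cont hu _ _).mul (entry_cont hu _ _)).sub
      ((entry_cont hu _ _).mul (entry_cont hu _ _))).mono hsub
  have cD2 : ContinuousOn (D2 u κ ρ) (GG κ ρ) :=
    (((entry_cont hu _ _).mul (entry_cont hu _ _)).sub
      ((entry_cont hu _ _).mul (entry_cont hu _ _))).mono hsub
  obtain ⟨V1, cV1, eV1⟩ := convex_lift (convex_GG κ ρ) ⟨_, hG0⟩ cD1 (fun x hx => (hu.D1_ne hx).1)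
  obtain ⟨V2, cV2, eV2⟩ := convex_lift (convex_GG κ ρ) ⟨_, hG0⟩ cD2 (fun x hx => (hu.D1_ne hx).2)
  -- the total constant
  have htot : ∀ x ∈ GG κ ρ, Complex.exp (V1 x + V2 x - Λ x) =
      ((Equiv.Perm.sign ρ : ℤ) : ℂ) * ((Equiv.Perm.sign κ : ℤ) : ℂ) := by
    intro x hx
    rw [Complex.exp_sub, Complex.exp_add, eV1 x hx, eV2 x hx, hl.eΛ x hx.1, ← hu.det_eq hx]
    rw [mul_div_assoc, div_self (hu.det x hx.1), mul_one]
  have ctot : ContinuousOn (fun x => V1 x + V2 x - Λ x) (GG κ ρ) :=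
    (cV1.add cV2).sub (hl.cΛ.mono hsub)
  have t1 := const_lift (convex_GG κ ρ) ctot htot hG0 hG1
  have t2 := const_lift (convex_GG κ ρ) ctot htot hG0 hG2
  have t3 := const_lift (convex_GG κ ρ) ctot htot hG0 hG3
  -- E1 : columns κ0 → ρ0, κ1 → ρ1
  have k1 : V1 (vx π0) - θ (κ 0) (ρ 0) (vx π0) - θ (κ 1) (ρ 1) (vx π0) =
      V1 (vx π2) - θ (κ 0) (ρ 0) (vx π2) - θ (κ 1) (ρ 1) (vx π2) := by
    apply const_lift (c := fun x => V1 x - θ (κ 0) (ρ 0) x - θ (κ 1) (ρ 1) x) (a := 1)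
      ((convex_FF (κ 0) (ρ 0)).inter (convex_FF (κ 1) (ρ 1)))
    · exact ((cV1.mono (fun x hx => FF_inter_GG1 hx.1 hx.2)).sub
        ((hl.cθ _ _).mono inter_subset_left)).sub ((hl.cθ _ _).mono inter_subset_right)
    · rintro x ⟨hx0, hx1⟩
      have hx := FF_inter_GG1 hx0 hx1
      have z1 : u x (ρ 0) (κ 1) = 0 := hu.row hx0 (κ.injective.ne (by decide))
      rw [Complex.exp_sub, Complex.exp_sub, eV1 x hx, hl.eθ _ _ x hx0, hl.eθ _ _ x hx1, D1, z1]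
      have n0 := hu.ne hx0
      have n1 := hu.ne hx1
      field_simp
      ring
    · exact ⟨vx_FF (h0 0), vx_FF (h0 1)⟩
    · exact ⟨vx_FF h20, vx_FF h21⟩
  have k2 : V1 (vx π1) - θ (κ 0) (ρ 1) (vx π1) - θ (κ 1) (ρ 0) (vx π1) =
      V1 (vx π3) - θ (κ 0) (ρ 1) (vx π3) - θ (κ 1) (ρ 0) (vx π3) := by
    apply const_lift (c := fun x => V1 x - θ (κ 0) (ρ 1) x - θ (κ 1) (ρ 0) x) (a := -1)
      ((convex_FF (κ 0) (ρ 1)).inter (convex_FF (κ 1) (ρ 0)))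
    · exact ((cV1.mono (fun x hx => FF_inter_GG2 hx.1 hx.2)).sub
        ((hl.cθ _ _).mono inter_subset_left)).sub ((hl.cθ _ _).mono inter_subset_right)
    · rintro x ⟨hx0, hx1⟩
      have hx := FF_inter_GG2 hx0 hx1
      have z1 : u x (ρ 0) (κ 0) = 0 := hu.row hx1 (κ.injective.ne (by decide))
      rw [Complex.exp_sub, Complex.exp_sub, eV1 x hx, hl.eθ _ _ x hx0, hl.eθ _ _ x hx1, D1, z1]
      have n0 := hu.ne hx0
      have n1 := hu.ne hx1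
      field_simp
      ring
    · exact ⟨vx_FF h10, vx_FF h11⟩
    · exact ⟨vx_FF h30, vx_FF h31⟩
  -- the lower block: membership in GG from columns κ2, κ3
  have hG34 : ∀ x, x ∈ FF (κ 2) (ρ 2) → x ∈ FF (κ 3) (ρ 3) → x ∈ GG κ ρ := by
    intro x hx2 hx3
    refine ⟨hx2.1, fun π hπ i => ?_⟩
    have e2 := hx2.2 π hπ
    have e3 := hx3.2 π hπ
    obtain ⟨b, rfl⟩ := κ.surjective i
    obtain ⟨c, hc⟩ := ρ.surjective (π (κ b))
    rw [mem_pair_iff, ← hc, mem_pair_iff]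
    have hb2 : b = 2 ↔ c = 2 := by
      constructor
      · rintro rfl; rw [e2] at hc; exact ρ.injective hc
      · rintro rfl; rw [← e2] at hc; exact κ.injective (π.injective hc.symm)
    have hb3 : b = 3 ↔ c = 3 := by
      constructor
      · rintro rfl; rw [e3] at hc; exact ρ.injective hc
      · rintro rfl; rw [← e3] at hc; exact κ.injective (π.injective hc.symm)
    revert hb2 hb3
    clear hc
    revert b c
    decide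
  have hG43 : ∀ x, x ∈ FF (κ 2) (ρ 3) → x ∈ FF (κ 3) (ρ 2) → x ∈ GG κ ρ := by
    intro x hx2 hx3
    refine ⟨hx2.1, fun π hπ i => ?_⟩
    have e2 := hx2.2 π hπ
    have e3 := hx3.2 π hπ
    obtain ⟨b, rfl⟩ := κ.surjective i
    obtain ⟨c, hc⟩ := ρ.surjective (π (κ b))
    rw [mem_pair_iff, ← hc, mem_pair_iff]
    have hb2 : b = 2 ↔ c = 3 := by
      constructor
      · rintro rfl; rw [e2] at hc; exact ρ.injective hc
      · rintro rfl; rw [← e2] at hc; exact κ.injective (π.injective hc.symm)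
    have hb3 : b = 3 ↔ c = 2 := by
      constructor
      · rintro rfl; rw [e3] at hc; exact ρ.injective hc
      · rintro rfl; rw [← e3] at hc; exact κ.injective (π.injective hc.symm)
    revert hb2 hb3
    clear hc
    revert b c
    decide
  have k3 : V2 (vx π0) - θ (κ 2) (ρ 2) (vx π0) - θ (κ 3) (ρ 3) (vx π0) =
      V2 (vx π1) - θ (κ 2) (ρ 2) (vx π1) - θ (κ 3) (ρ 3) (vx π1) := by
    apply const_lift (c := fun x => V2 x - θ (κ 2) (ρ 2) x - θ (κ 3) (ρ 3) x) (a := 1)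
      ((convex_FF (κ 2) (ρ 2)).inter (convex_FF (κ 3) (ρ 3)))
    · exact ((cV2.mono (fun x hx => hG34 x hx.1 hx.2)).sub
        ((hl.cθ _ _).mono inter_subset_left)).sub ((hl.cθ _ _).mono inter_subset_right)
    · rintro x ⟨hx0, hx1⟩
      have hx := hG34 x hx0 hx1
      have z1 : u x (ρ 2) (κ 3) = 0 := hu.row hx0 (κ.injective.ne (by decide))
      rw [Complex.exp_sub, Complex.exp_sub, eV2 x hx, hl.eθ _ _ x hx0, hl.eθ _ _ x hx1, D2, z1]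
      have n0 := hu.ne hx0
      have n1 := hu.ne hx1
      field_simp
      ring
    · exact ⟨vx_FF (h0 2), vx_FF (h0 3)⟩
    · exact ⟨vx_FF h12, vx_FF h13⟩
  have k4 : V2 (vx π2) - θ (κ 2) (ρ 3) (vx π2) - θ (κ 3) (ρ 2) (vx π2) =
      V2 (vx π3) - θ (κ 2) (ρ 3) (vx π3) - θ (κ 3) (ρ 2) (vx π3) := by
    apply const_lift (c := fun x => V2 x - θ (κ 2) (ρ 3) x - θ (κ 3) (ρ 2) x) (a := -1)
      ((convex_FF (κ 2) (ρ 3)).inter (convex_FF (κ 3) (ρ 2)))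
    · exact ((cV2.mono (fun x hx => hG43 x hx.1 hx.2)).sub
        ((hl.cθ _ _).mono inter_subset_left)).sub ((hl.cθ _ _).mono inter_subset_right)
    · rintro x ⟨hx0, hx1⟩
      have hx := hG43 x hx0 hx1
      have z1 : u x (ρ 2) (κ 2) = 0 := hu.row hx1 (κ.injective.ne (by decide))
      rw [Complex.exp_sub, Complex.exp_sub, eV2 x hx, hl.eθ _ _ x hx0, hl.eθ _ _ x hx1, D2, z1]
      have n0 := hu.ne hx0
      have n1 := hu.ne hx1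
      field_simp
      ring
    · exact ⟨vx_FF h22, vx_FF h23⟩
    · exact ⟨vx_FF h32, vx_FF h33⟩
  unfold ff
  rw [sum_reindex κ (fun i => θ i (π0 i) (vx π0)), sum_reindex κ (fun i => θ i (π1 i) (vx π1)),
    sum_reindex κ (fun i => θ i (π2 i) (vx π2)), sum_reindex κ (fun i => θ i (π3 i) (vx π3))]
  simp only [h0, h10, h11, h12, h13, h20, h21, h22, h23, h30, h31, h32, h33]
  linear_combination k1 - k2 + k3 - k4 - t1 - t2 + t3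

/-- permutations by their words -/
def W (a b c _d : Fin 4) : P4 :=
  Equiv.swap 0 a * Equiv.swap 1 (Equiv.swap 0 a b) *
    Equiv.swap 2 ((Equiv.swap 0 a * Equiv.swap 1 (Equiv.swap 0 a b)).symm c)

/-- The obstruction. -/
theorem no_blocky (u : (P4 → ℝ) → Matrix (Fin 4) (Fin 4) ℂ) (hu : Blocky u) : False := by
  obtain ⟨Λ, θ, hl⟩ := exists_lifts hu
  have sq : ∀ κ ρ π0 π1 π2 π3 : P4, ((∀ b, π0 (κ b) = ρ b) ∧
    (π1 (κ 0) = ρ 1 ∧ π1 (κ 1) = ρ 0 ∧ π1 (κ 2) = ρ 2 ∧ π1 (κ 3) = ρ 3) ∧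
    (π2 (κ 0) = ρ 0 ∧ π2 (κ 1) = ρ 1 ∧ π2 (κ 2) = ρ 3 ∧ π2 (κ 3) = ρ 2) ∧
    (π3 (κ 0) = ρ 1 ∧ π3 (κ 1) = ρ 0 ∧ π3 (κ 2) = ρ 3 ∧ π3 (κ 3) = ρ 2)) →
      ff Λ θ π0 + ff Λ θ π3 = ff Λ θ π1 + ff Λ θ π2 := by
    rintro κ ρ π0 π1 π2 π3 ⟨h0, ⟨h10, h11, h12, h13⟩, ⟨h20, h21, h22, h23⟩, ⟨h30, h31, h32, h33⟩⟩
    exact square hu hl κ ρ h0 h10 h11 h12 h13 h20 h21 h22 h23 h30 h31 h32 h33
  have r0 := sq (W 0 1 2 3) (W 0 1 2 3) (W 0 1 2 3) (W 1 0 2 3) (W 0 1 3 2) (W 1 0 3 2) (by decide)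
  have r1 := sq (W 0 1 2 3) (W 1 2 0 3) (W 1 2 0 3) (W 2 1 0 3) (W 1 2 3 0) (W 2 1 3 0) (by decide)
  have r2 := sq (W 0 1 2 3) (W 2 0 1 3) (W 2 0 1 3) (W 0 2 1 3) (W 2 0 3 1) (W 0 2 3 1) (by decide)
  have r3 := sq (W 1 2 0 3) (W 1 2 0 3) (W 0 1 2 3) (W 0 2 1 3) (W 3 1 2 0) (W 3 2 1 0) (by decide)
  have r4 := sq (W 1 2 0 3) (W 2 0 1 3) (W 1 2 0 3) (W 1 0 2 3) (W 3 2 0 1) (W 3 0 2 1) (by decide)
  have r5 := sq (W 1 2 0 3) (W 0 1 2 3) (W 2 0 1 3) (W 2 1 0 3) (W 3 0 1 2) (W 3 1 0 2) (by decide)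
  have r6 := sq (W 1 3 0 2) (W 1 2 0 3) (W 0 1 3 2) (W 0 2 3 1) (W 3 1 0 2) (W 3 2 0 1) (by decide)
  have r7 := sq (W 1 3 0 2) (W 2 0 1 3) (W 1 2 3 0) (W 1 0 3 2) (W 3 2 1 0) (W 3 0 1 2) (by decide)
  have r8 := sq (W 1 3 0 2) (W 0 1 2 3) (W 2 0 3 1) (W 2 1 3 0) (W 3 0 2 1) (W 3 1 2 0) (by decide)
  have hS : (ff Λ θ (W 1 0 2 3)) + (ff Λ θ (W 2 1 0 3)) + (ff Λ θ (W 0 2 1 3)) - ((ff Λ θ (W 0 1 2 3)) + (ff Λ θ (W 1 2 0 3)) + (ff Λ θ (W 2 0 1 3))) = 0 := by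
    linear_combination (-1/2 : ℂ) * (r0 + r1 + r2 + r3 + r4 + r5 + r6 + r7 + r8)
  have hE := congrArg Complex.exp hS
  rw [Complex.exp_sub, Complex.exp_add, Complex.exp_add, Complex.exp_add, Complex.exp_add,
    exp_ff hu hl, exp_ff hu hl, exp_ff hu hl, exp_ff hu hl, exp_ff hu hl, exp_ff hu hl,
    Complex.exp_zero] at hE
  have s102 : Equiv.Perm.sign (W 1 0 2 3) = -1 := by decide
  have s210 : Equiv.Perm.sign (W 2 1 0 3) = -1 := by decide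
  have s021 : Equiv.Perm.sign (W 0 2 1 3) = -1 := by decide
  have s012 : Equiv.Perm.sign (W 0 1 2 3) = 1 := by decide
  have s120 : Equiv.Perm.sign (W 1 2 0 3) = 1 := by decide
  have s201 : Equiv.Perm.sign (W 2 0 1 3) = 1 := by decide
  rw [s102, s210, s021, s012, s120, s201] at hE
  norm_num at hE

end Pool.Agent.H57.DK
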