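import Pool.Agent.H57.DK.Extract
import Pool.Agent.H57.DK.Obstruction

open Set Topology
open scoped ZeroAtInfty
open Pool.Agent.MP_7f766c_an

namespace Pool.Agent.H57.DK

abbrev I := unitInterval

/-- parameter space: a cube with coordinates indexed by permutations -/
abbrev Z := P4 → I

/-- coordinates of the target: permutations and pairs of subsets -/
abbrev J := P4 ⊕ (Finset (Fin 4) × Finset (Fin 4))

abbrev K := J → I

/-- the space of the systems -/
abbrev XX := Z ⊕ K

/-- `π` maps `A` onto `B` -/
def MapsTo' (π : P4) (A B : Finset (Fin 4)) : Prop := ∀ i, i ∈ A ↔ π i ∈ B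

instance (π : P4) (A B : Finset (Fin 4)) : Decidable (MapsTo' π A B) := by
  unfold MapsTo'; infer_instance

/-- weights, real version -/
noncomputable def hr (A B : Finset (Fin 4)) (z : Z) : ℝ :=
  max 0 ((∑ π : P4, (z π : ℝ)) - 1 / 2) *
    ∏ π : P4, (if MapsTo' π A B then 1 else max 0 (1 / 100 - (z π : ℝ)))

/-- weights in the unit interval -/
noncomputable def hh (A B : Finset (Fin 4)) (z : Z) : I := Set.projIcc 0 1 zero_le_one (hr A B z)

lemma continuous_hr (A B : Finset (Fin 4)) : Continuous (hr A B) := by
  unfold hr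
  apply Continuous.mul
  · fun_prop
  · apply continuous_finsetProd
    intro π _
    split_ifs
    · exact continuous_const
    · fun_prop

lemma continuous_hh (A B : Finset (Fin 4)) : Continuous (hh A B) :=
  continuous_projIcc.comp (continuous_hr A B)

lemma hr_nonneg (A B : Finset (Fin 4)) (z : Z) : 0 ≤ hr A B z := by
  unfold hr
  apply mul_nonneg (le_max_left _ _)
  apply Finset.prod_nonneg
  intro π _
  split_ifs
  · exact zero_le_one
  · exact le_max_left _ _

lemma hh_ne_zero {A B : Finset (Fin 4)} {z : Z} (h : hh A B z ≠ 0) : hr A B z ≠ 0 := by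
  intro h0
  apply h
  unfold hh
  rw [h0]
  exact Set.projIcc_left _

/-- if the weight is nonzero then the total mass is larger than `1/2` and every permutation with
mass at least `1/100` maps `A` onto `B` -/
lemma hr_ne_zero {A B : Finset (Fin 4)} {z : Z} (h : hr A B z ≠ 0) :
    1 / 2 < ∑ π : P4, (z π : ℝ) ∧ ∀ π : P4, 1 / 100 ≤ (z π : ℝ) → MapsTo' π A B := by
  unfold hr at h
  constructor
  · by_contra hle
    push Not at hle
    apply h
    rw [max_eq_left (by linarith), zero_mul]
  · intro π hπ
    by_contra hm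
    apply h
    apply mul_eq_zero_of_right
    apply Finset.prod_eq_zero (Finset.mem_univ π)
    rw [if_neg hm, max_eq_left (by linarith)]

/-- the two families of maps on the parameter space -/
noncomputable def sv (i : Fin 4) (z : Z) : K :=
  Sum.elim z (fun q => if i ∈ q.1 then hh q.1 q.2 z else 0)

noncomputable def tv (j : Fin 4) (z : Z) : K :=
  Sum.elim z (fun q => if j ∈ q.2 then hh q.1 q.2 z else 0)

lemma continuous_sv (i : Fin 4) : Continuous (sv i) := by
  apply continuous_pi
  rintro (π | q)
  · exact continuous_apply π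
  · show Continuous (fun z : Z => if i ∈ q.1 then hh q.1 q.2 z else 0)
    split_ifs
    · exact continuous_hh _ _
    · exact continuous_const

lemma continuous_tv (i : Fin 4) : Continuous (tv i) := by
  apply continuous_pi
  rintro (π | q)
  · exact continuous_apply π
  · show Continuous (fun z : Z => if i ∈ q.2 then hh q.1 q.2 z else 0)
    split_ifs
    · exact continuous_hh _ _
    · exact continuous_const

lemma tv_eq_sv {z : Z} {π : P4} (h : 1 / 100 < (z π : ℝ) ∨ ∑ π : P4, (z π : ℝ) < 1 / 2)
    (i : Fin 4) : tv (π i) z = sv i z := by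
  funext k
  rcases k with k | q
  · rfl
  · show (if π i ∈ q.2 then hh q.1 q.2 z else 0) = if i ∈ q.1 then hh q.1 q.2 z else 0
    by_cases h0 : hh q.1 q.2 z = 0
    · rw [h0]; simp
    · obtain ⟨h1, h2⟩ := hr_ne_zero (hh_ne_zero h0)
      rcases h with h | h
      · have := h2 π h.le i
        simp only [this]
      · linarith

/-- halving maps of the unit interval -/
noncomputable def half (b : Bool) (t : I) : I :=
  ⟨((t : ℝ) + (if b then 1 else 0)) / 2, by
    have h0 := t.2.1
    have h1 := t.2.2
    constructor <;> split_ifs <;> linarith⟩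

lemma half_coe (b : Bool) (t : I) : (half b t : ℝ) = ((t : ℝ) + (if b then 1 else 0)) / 2 := rfl

lemma continuous_half (b : Bool) : Continuous (half b) := by
  apply Continuous.subtype_mk
  fun_prop

/-- a transitive permutation of the coordinates -/
lemma exists_cycle : ∃ c : Equiv.Perm J, ∀ k : J, ∃ m : ℕ, (c ^ m) k = Sum.inl 1 := by
  classical
  obtain ⟨f, hf, -⟩ := Finset.exists_cycleOn (Finset.univ : Finset J)
  refine ⟨f, fun k => ?_⟩
  have h := hf.2 (Finset.mem_coe.mpr (Finset.mem_univ k))
    (Finset.mem_coe.mpr (Finset.mem_univ (Sum.inl 1)))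
  obtain ⟨m, -, hm⟩ := h.exists_pow_eq'
  exact ⟨m, hm⟩

/-- the contraction-like maps on `K` -/
noncomputable def rr (c : Equiv.Perm J) (b : Bool) (w : K) : K :=
  fun k => if k = Sum.inl 1 then half b (w (c k)) else w (c k)

lemma continuous_rr (c : Equiv.Perm J) (b : Bool) : Continuous (rr c b) := by
  apply continuous_pi
  intro k
  show Continuous (fun w : K => if k = Sum.inl 1 then half b (w (c k)) else w (c k))
  split_ifs
  · exact (continuous_half b).comp (continuous_apply _)
  · exact continuous_apply _

lemma rr_base (c : Equiv.Perm J) (b : Bool) (w : K) :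
    (rr c b w (Sum.inl 1) : ℝ) = ((w (c (Sum.inl 1)) : ℝ) + (if b then 1 else 0)) / 2 := by
  unfold rr
  rw [if_pos rfl, half_coe]

lemma rr_other (c : Equiv.Perm J) (b : Bool) (w : K) {k : J} (hk : k ≠ Sum.inl 1) :
    rr c b w k = w (c k) := by
  unfold rr
  rw [if_neg hk]

/-- joint surjectivity -/
lemma rr_surj (c : Equiv.Perm J) (w : K) : ∃ b z, rr c b z = w := by
  have hw0 := (w (Sum.inl 1)).2.1
  have hw1 := (w (Sum.inl 1)).2.2
  by_cases h : (w (Sum.inl 1) : ℝ) ≤ 1 / 2
  · refine ⟨false, fun k => if c.symm k = Sum.inl 1 then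
      ⟨2 * (w (Sum.inl 1) : ℝ), by constructor <;> linarith⟩ else w (c.symm k), ?_⟩
    funext k
    by_cases hk : k = Sum.inl 1
    · subst hk
      apply Subtype.ext
      rw [rr_base]
      simp
    · rw [rr_other _ _ _ hk]
      simp [hk]
  · push Not at h
    refine ⟨true, fun k => if c.symm k = Sum.inl 1 then
      ⟨2 * (w (Sum.inl 1) : ℝ) - 1, by constructor <;> linarith⟩ else w (c.symm k), ?_⟩
    funext k
    by_cases hk : k = Sum.inl 1
    · subst hk
      apply Subtype.ext
      rw [rr_base]
      simp
    · rw [rr_other _ _ _ hk]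
      simp [hk]

/-- rigidity: a self-map commuting with both maps is the identity -/
lemma rigid {c : Equiv.Perm J} (hc : ∀ k : J, ∃ m : ℕ, (c ^ m) k = Sum.inl 1) {γ : K → K}
    (hγ : ∀ b w, γ (rr c b w) = rr c b (γ w)) (w : K) : γ w = w := by
  -- halving
  have step : ∀ M : ℝ, (∀ w k, |(γ w k : ℝ) - w k| ≤ M) →
      ∀ w k, |(γ w k : ℝ) - w k| ≤ M / 2 := by
    intro M hM
    have base : ∀ w : K, |(γ w (Sum.inl 1) : ℝ) - w (Sum.inl 1)| ≤ M / 2 := by
      intro w
      obtain ⟨b, z, rfl⟩ := rr_surj c w
      rw [hγ, rr_base, rr_base]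
      have := hM z (c (Sum.inl 1))
      have e : ((γ z (c (Sum.inl 1)) : ℝ) + (if b then 1 else 0)) / 2 -
        ((z (c (Sum.inl 1)) : ℝ) + (if b then 1 else 0)) / 2 =
          ((γ z (c (Sum.inl 1)) : ℝ) - z (c (Sum.inl 1))) / 2 := by ring
      rw [e, abs_div]
      have h2 : |(2 : ℝ)| = 2 := abs_of_pos (by norm_num)
      rw [h2]
      linarith
    have ind : ∀ m : ℕ, ∀ k : J, (c ^ m) k = Sum.inl 1 →
        ∀ w : K, |(γ w k : ℝ) - w k| ≤ M / 2 := by
      intro m
      induction m with
      | zero =>
        intro k hk w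
        have : k = Sum.inl 1 := by simpa using hk
        rw [this]
        exact base w
      | succ m ih =>
        intro k hk w
        by_cases h : k = Sum.inl 1
        · rw [h]; exact base w
        · obtain ⟨b, z, rfl⟩ := rr_surj c w
          rw [hγ, rr_other _ _ _ h, rr_other _ _ _ h]
          apply ih
          rw [pow_succ, Equiv.Perm.mul_apply] at hk
          exact hk
    intro w k
    obtain ⟨m, hm⟩ := hc k
    exact ind m k hm w
  have all : ∀ n : ℕ, ∀ w k, |(γ w k : ℝ) - w k| ≤ (1 / 2 : ℝ) ^ n := by
    intro n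
    induction n with
    | zero =>
      intro w k
      have h1 := (γ w k).2.1
      have h2 := (γ w k).2.2
      have h3 := (w k).2.1
      have h4 := (w k).2.2
      rw [abs_le]
      constructor <;> simp <;> linarith
    | succ n ih =>
      intro w k
      have := step _ ih w k
      rw [pow_succ]
      linarith
  funext k
  apply Subtype.ext
  have h1 : |(γ w k : ℝ) - w k| ≤ 0 := by
    apply ge_of_tendsto' (tendsto_pow_atTop_nhds_zero_of_lt_one (r := (1 / 2 : ℝ))
      (by norm_num) (by norm_num))
    intro n
    exact all n w k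
  have h2 := abs_nonpos_iff.mp h1
  linarith

/-- which of the two maps the index `i` uses on `K` -/
def bi (i : Fin 4) : Bool := if i = 0 then false else true

noncomputable def sfun (c : Equiv.Perm J) (i : Fin 4) : XX → XX :=
  Sum.elim (fun z => Sum.inr (sv i z)) (fun w => Sum.inr (rr c (bi i) w))

noncomputable def tfun (c : Equiv.Perm J) (i : Fin 4) : XX → XX :=
  Sum.elim (fun z => Sum.inr (tv i z)) (fun w => Sum.inr (rr c (bi i) w))

lemma continuous_sfun (c : Equiv.Perm J) (i : Fin 4) : Continuous (sfun c i) :=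
  (continuous_inr.comp (continuous_sv i)).sumElim (continuous_inr.comp (continuous_rr c (bi i)))

lemma continuous_tfun (c : Equiv.Perm J) (i : Fin 4) : Continuous (tfun c i) :=
  (continuous_inr.comp (continuous_tv i)).sumElim (continuous_inr.comp (continuous_rr c (bi i)))

/-- a continuous self-map of a compact space is proper -/
def mkC (f : XX → XX) (hf : Continuous f) : CocompactMap XX XX :=
  ⟨⟨f, hf⟩, by simp⟩

lemma mkC_apply (f : XX → XX) (hf : Continuous f) (x : XX) : mkC f hf x = f x := rfl

theorem pwc (c : Equiv.Perm J) :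
    PiecewiseConjugate (fun i => mkC (sfun c i) (continuous_sfun c i))
      (fun i => mkC (tfun c i) (continuous_tfun c i)) := by
  refine ⟨Homeomorph.refl XX, fun π => {x | Sum.elim
    (fun z : Z => 1 / 100 < (z π.symm : ℝ) ∨ ∑ π : P4, (z π : ℝ) < 1 / 2) (fun _ => π = 1) x},
    ?_, ?_, ?_⟩
  · intro π
    rw [isOpen_sum_iff]
    constructor
    · show IsOpen ({z : Z | 1 / 100 < (z π.symm : ℝ)} ∪ {z : Z | ∑ π : P4, (z π : ℝ) < 1 / 2})
      have c1 : Continuous (fun z : Z => (z π.symm : ℝ)) :=
        continuous_subtype_val.comp (continuous_apply _)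
      have c2 : Continuous (fun z : Z => ∑ π : P4, (z π : ℝ)) :=
        continuous_finsetSum _ (fun π _ => continuous_subtype_val.comp (continuous_apply _))
      exact (isOpen_lt continuous_const c1).union (isOpen_lt c2 continuous_const)
    · show IsOpen {w : K | π = 1}
      exact isOpen_const
  · rw [eq_univ_iff_forall]
    rintro (z | w)
    · rw [mem_iUnion]
      by_cases h : ∑ π : P4, (z π : ℝ) < 1 / 2
      · exact ⟨1, Or.inr h⟩
      · by_contra hcon
        push Not at hcon
        apply h
        have h1 : ∀ π : P4, (z π : ℝ) ≤ 1 / 100 := by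
          intro π
          have := hcon π.symm
          by_contra hlt
          push Not at hlt
          apply this
          exact Or.inl (by simpa using hlt)
        have h2 : ∑ π : P4, (z π : ℝ) ≤ ∑ π : P4, (1 / 100 : ℝ) :=
          Finset.sum_le_sum (fun π _ => h1 π)
        have h3 : ∑ π : P4, (1 / 100 : ℝ) = 24 / 100 := by
          rw [Finset.sum_const, Finset.card_univ, Fintype.card_perm]
          simp [Nat.factorial]
          norm_num
        linarith
    · rw [mem_iUnion]
      exact ⟨1, rfl⟩
  · intro π x hx i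
    rcases x with z | w
    · show Sum.inr (tv i z) = Sum.inr (sv (π i) z)
      have := tv_eq_sv (z := z) (π := π.symm) hx (π i)
      rw [Equiv.symm_apply_apply] at this
      rw [this]
    · have hπ : π = 1 := hx
      rw [hπ]
      rfl

lemma exists_perm_ne {M : Matrix (Fin 4) (Fin 4) ℂ} (h : M.det ≠ 0) :
    ∃ π : P4, ∀ i, M (π i) i ≠ 0 := by
  rw [Matrix.det_apply'] at h
  obtain ⟨π, -, hπ⟩ := Finset.exists_ne_zero_of_sum_ne_zero h
  refine ⟨π, fun i => ?_⟩
  exact (Finset.prod_ne_zero_iff.mp (right_ne_zero_of_mul hπ)) i (Finset.mem_univ i)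

/-- coordinates of the simplex as a point of the cube -/
noncomputable def toZ (x : P4 → ℝ) : Z := fun π => Set.projIcc 0 1 zero_le_one (x π)

lemma continuous_toZ : Continuous toZ :=
  continuous_pi (fun π => continuous_projIcc.comp (continuous_apply π))

lemma toZ_coe {x : P4 → ℝ} (hx : x ∈ SS) (π : P4) : (toZ x π : ℝ) = x π := by
  have h0 : 0 ≤ x π := hx.1 π
  have h1 : x π ≤ 1 := by
    rw [← hx.2]
    exact Finset.single_le_sum (fun i _ => hx.1 i) (Finset.mem_univ π)
  unfold toZ
  rw [Set.projIcc_of_mem zero_le_one ⟨h0, h1⟩]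

theorem not_ue {c : Equiv.Perm J} (hc : ∀ k : J, ∃ m : ℕ, (c ^ m) k = Sum.inl 1) :
    ¬ UnitarilyEquivalent (fun i => mkC (sfun c i) (continuous_sfun c i))
      (fun i => mkC (tfun c i) (continuous_tfun c i)) := by
  intro h
  obtain ⟨g, u, hu, hdet, hne⟩ := extract h
  have hperm : ∀ y, ∃ π : P4, ∀ i, sfun c i (g y) = g (tfun c (π i) y) := by
    intro y
    obtain ⟨π, hπ⟩ := exists_perm_ne (hdet y)
    exact ⟨π, fun i => hne y i (π i) (hπ i)⟩
  have hrange : ∀ i x, ∃ w, sfun c i x = Sum.inr w := by
    rintro i (z | w)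
    · exact ⟨_, rfl⟩
    · exact ⟨_, rfl⟩
  -- `g` maps `K` to `K`
  have hgK : ∀ w : K, ∃ w' : K, g (Sum.inr w) = Sum.inr w' := by
    intro w
    obtain ⟨b, z, hz⟩ := rr_surj c w
    obtain ⟨π, hπ⟩ := hperm (Sum.inr z)
    have h1 := hπ (π.symm (if b then 1 else 0))
    rw [Equiv.apply_symm_apply] at h1
    have h2 : tfun c (if b then 1 else 0) (Sum.inr z) = Sum.inr w := by
      show Sum.inr (rr c (bi (if b then 1 else 0)) z) = Sum.inr w
      rw [← hz]
      cases b <;> rfl
    rw [h2] at h1
    obtain ⟨w', hw'⟩ := hrange (π.symm (if b then 1 else 0)) (g (Sum.inr z))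
    exact ⟨w', by rw [← h1, hw']⟩
  choose γ hγ using hgK
  have hcomm : ∀ b w, γ (rr c b w) = rr c b (γ w) := by
    have key : ∀ w, γ (rr c false w) = rr c false (γ w) ∧ γ (rr c true w) = rr c true (γ w) := by
      intro w
      obtain ⟨π, hπ⟩ := hperm (Sum.inr w)
      have h1 : ∀ i, rr c (bi i) (γ w) = γ (rr c (bi (π i)) w) := by
        intro i
        have := hπ i
        rw [hγ] at this
        have h2 : g (tfun c (π i) (Sum.inr w)) = Sum.inr (γ (rr c (bi (π i)) w)) := by
          rw [← hγ]; rfl
        rw [h2] at this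
        exact Sum.inr_injective this
      by_cases h0 : π 0 = 0
      · have h2 := h1 0
        have h3 := h1 1
        rw [h0] at h2
        have h4 : π 1 ≠ 0 := by
          intro h4
          exact absurd (π.injective (h4.trans h0.symm)) (by decide)
        have e1 : bi (π 1) = true := by unfold bi; rw [if_neg h4]
        rw [e1] at h3
        exact ⟨h2.symm, h3.symm⟩
      · exfalso
        obtain ⟨i, hi, hi2⟩ : ∃ i, i ≠ 0 ∧ π i ≠ 0 := by
          by_cases h6 : π 1 = 0
          · refine ⟨2, by decide, fun h7 => ?_⟩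
            exact absurd (π.injective (h7.trans h6.symm)) (by decide)
          · exact ⟨1, by decide, h6⟩
        have h2 := h1 0
        have h3 := h1 i
        have e0 : bi (π 0) = true := by unfold bi; rw [if_neg h0]
        have e1 : bi (π i) = true := by unfold bi; rw [if_neg hi2]
        have e2 : bi i = true := by unfold bi; rw [if_neg hi]
        rw [e0] at h2
        rw [e1, e2] at h3
        have h4 : rr c false (γ w) = rr c true (γ w) := h2.trans h3.symm
        have h5 := congrArg (fun v : K => (v (Sum.inl 1) : ℝ)) h4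
        simp only [rr_base] at h5
        norm_num at h5
    intro b w
    cases b
    · exact (key w).1
    · exact (key w).2
  have hid : ∀ w, γ w = w := rigid hc hcomm
  have hgK' : ∀ w : K, g (Sum.inr w) = Sum.inr w := fun w => by rw [hγ, hid]
  have hgZ : ∀ z : Z, g (Sum.inl z) = Sum.inl z := by
    intro z
    obtain ⟨π, hπ⟩ := hperm (Sum.inl z)
    have h1 : ∀ i, sfun c i (g (Sum.inl z)) = Sum.inr (tv (π i) z) := by
      intro i
      rw [hπ i]
      exact hgK' _
    rcases hg : g (Sum.inl z) with z' | k
    · have h2 := h1 0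
      rw [hg] at h2
      have h3 : sv 0 z' = tv (π 0) z := Sum.inr_injective h2
      congr 1
      funext ρ
      exact congrArg (fun v : K => v (Sum.inl ρ)) h3
    · exfalso
      have h2 := h1 0
      have h3 := h1 1
      rw [hg] at h2 h3
      have h4 : rr c false k = tv (π 0) z := Sum.inr_injective h2
      have h5 : rr c true k = tv (π 1) z := Sum.inr_injective h3
      have h6 := congrArg (fun v : K => (v (Sum.inl 1) : ℝ)) h4
      have h7 := congrArg (fun v : K => (v (Sum.inl 1) : ℝ)) h5
      simp only [rr_base] at h6 h7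
      have h8 : ((tv (π 0) z (Sum.inl 1) : I) : ℝ) = (z 1 : ℝ) := rfl
      have h9 : ((tv (π 1) z (Sum.inl 1) : I) : ℝ) = (z 1 : ℝ) := rfl
      rw [h8] at h6
      rw [h9] at h7
      norm_num at h6 h7
      linarith
  have hst : ∀ z i j, u (Sum.inl z) j i ≠ 0 → sv i z = tv j z := by
    intro z i j hn
    have h1 := hne (Sum.inl z) i j hn
    rw [hgZ] at h1
    have h2 : (Sum.inr (sv i z) : XX) = g (Sum.inr (tv j z)) := h1
    rw [hgK'] at h2
    exact Sum.inr_injective h2
  -- contradiction
  apply no_blocky (fun x => u (Sum.inl (toZ x)))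
  refine ⟨(hu.comp (continuous_inl.comp continuous_toZ)).continuousOn, fun x _ => hdet _, ?_⟩
  intro x hx A B hAB i j hij
  by_contra hn
  have h1 := hst (toZ x) i j hn
  have h2 : (if i ∈ A then hh A B (toZ x) else 0) = if j ∈ B then hh A B (toZ x) else 0 :=
    congrArg (fun v : K => v (Sum.inr (A, B))) h1
  have hpos : 0 < hr A B (toZ x) := by
    unfold hr
    apply mul_pos
    · apply lt_max_of_lt_right
      simp_rw [toZ_coe hx]
      rw [hx.2]
      norm_num
    · apply Finset.prod_pos
      intro π _
      split_ifs with hm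
      · exact one_pos
      · apply lt_max_of_lt_right
        rw [toZ_coe hx]
        have : x π = 0 := by
          by_contra h0
          exact hm (hAB π h0)
        rw [this]
        norm_num
  have hne0 : hh A B (toZ x) ≠ 0 := by
    intro h0
    unfold hh at h0
    have := congrArg Subtype.val h0
    rw [Set.coe_projIcc] at this
    have h3 : 0 < max 0 (min 1 (hr A B (toZ x))) := lt_max_of_lt_right (lt_min one_pos hpos)
    rw [this] at h3
    exact lt_irrefl _ h3
  by_cases hi : i ∈ A
  · by_cases hj : j ∈ B
    · exact hij ⟨fun _ => hj, fun _ => hi⟩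
    · rw [if_pos hi, if_neg hj] at h2
      exact hne0 h2
  · by_cases hj : j ∈ B
    · rw [if_neg hi, if_pos hj] at h2
      exact hne0 h2.symm
    · exact hij ⟨fun h => absurd h hi, fun h => absurd h hj⟩

/-- Main theorem: there are piecewise conjugate systems with four maps on a compact metrizable
space whose C*-correspondences are not unitarily equivalent. -/
theorem main : ∃ (X : Type) (_ : TopologicalSpace X) (_ : CompactSpace X)
    (_ : TopologicalSpace.MetrizableSpace X) (σ τ : Fin 4 → CocompactMap X X),
    PiecewiseConjugate σ τ ∧ ¬ UnitarilyEquivalent σ τ := by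
  obtain ⟨c, hc⟩ := exists_cycle
  exact ⟨XX, inferInstance, inferInstance, inferInstance, _, _, pwc c, not_ue hc⟩

end Pool.Agent.H57.DK
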