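import Pool.Agent.H57.DK.Defs

open Set Topology
open scoped ZeroAtInfty
open Pool.Agent.MP_7f766c_an

namespace Pool.Agent.H57.DK

variable {X Y : Type} [TopologicalSpace X] [TopologicalSpace Y] [CompactSpace X] [T2Space X]
  [CompactSpace Y] [T2Space Y]

/-- the function of `C(X)` as an element of `C₀(X)` -/
def lf (f : C(X, ℂ)) : C₀(X, ℂ) := ⟨f, by simp⟩

omit [T2Space X] in
lemma lf_apply (f : C(X, ℂ)) (x : X) : lf f x = f x := rfl

/-- the constant function one -/
noncomputable def one0 (X : Type) [TopologicalSpace X] [CompactSpace X] : C₀(X, ℂ) :=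
  lf (1 : C(X, ℂ))

omit [T2Space X] in
lemma one0_apply (x : X) : one0 X x = 1 := rfl

omit [T2Space X] [T2Space Y] in
lemma rho_one (ρ : C₀(X, ℂ) ≃⋆ₐ[ℂ] C₀(Y, ℂ)) : ρ (one0 X) = one0 Y := by
  have h : ρ (one0 X) * ρ (ρ.symm (one0 Y)) = ρ (ρ.symm (one0 Y)) := by
    rw [← map_mul]
    congr 1
    ext x
    simp [one0_apply]
  rw [ρ.apply_symm_apply] at h
  ext y
  have := congrArg (fun f : C₀(Y, ℂ) => f y) h
  simpa [one0_apply] using this

omit [T2Space Y] in
/-- Gelfand duality: `ρ` is composition with a map. -/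
lemma exists_point (ρ : C₀(X, ℂ) ≃⋆ₐ[ℂ] C₀(Y, ℂ)) (y : Y) :
    ∃ x : X, ∀ f : C₀(X, ℂ), ρ f y = f x := by
  let χ : C(X, ℂ) →ₐ[ℂ] ℂ := AlgHom.ofLinearMap
    { toFun := fun f => ρ (lf f) y
      map_add' := by
        intro f g
        have : lf (f + g) = lf f + lf g := rfl
        rw [this, map_add]; rfl
      map_smul' := by
        intro c f
        have : lf (c • f) = c • lf f := rfl
        rw [this, map_smul]; rfl }
    (by
      show ρ (lf 1) y = 1
      have := rho_one ρ
      rw [one0] at this
      rw [this]; rfl)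
    (by
      intro f g
      show ρ (lf (f * g)) y = ρ (lf f) y * ρ (lf g) y
      have : lf (f * g) = lf f * lf g := rfl
      rw [this, map_mul]; rfl)
  obtain ⟨x, hx⟩ := (WeakDual.CharacterSpace.continuousMapEval_bijective (X := X) (𝕜 := ℂ)).2
    (WeakDual.CharacterSpace.equivAlgHom.symm χ)
  refine ⟨x, fun f => ?_⟩
  have h1 := congrArg (fun φ : WeakDual.characterSpace ℂ C(X, ℂ) => φ (f : C(X, ℂ))) hx
  have h2 : (WeakDual.CharacterSpace.equivAlgHom.symm χ) (f : C(X, ℂ)) = χ (f : C(X, ℂ)) := rfl
  rw [h2] at h1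
  have h3 : χ (f : C(X, ℂ)) = ρ f y := rfl
  rw [h3] at h1
  rw [← h1]
  rfl

lemma separate {x x' : X} (h : ∀ f : C₀(X, ℂ), f x = f x') : x = x' := by
  apply (WeakDual.CharacterSpace.continuousMapEval_bijective (X := X) (𝕜 := ℂ)).1
  apply Subtype.ext
  apply DFunLike.ext
  intro f
  exact h (lf f)

/-- Extracting a point map and a unitary matrix function. -/
theorem extract {n : ℕ} {σ : Fin n → CocompactMap X X} {τ : Fin n → CocompactMap Y Y}
    (h : UnitarilyEquivalent σ τ) :
    ∃ (g : Y → X) (u : Y → Matrix (Fin n) (Fin n) ℂ), Continuous u ∧ (∀ y, (u y).det ≠ 0) ∧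
      ∀ y i j, u y j i ≠ 0 → σ i (g y) = g (τ j y) := by
  classical
  obtain ⟨ρ, U, hsurj, hinner, hact⟩ := h
  choose g hg using exists_point ρ
  -- basis vectors
  set e : Fin n → Fin n → C₀(X, ℂ) := fun i k => if k = i then one0 X else 0 with he
  set u : Y → Matrix (Fin n) (Fin n) ℂ := fun y => Matrix.of fun j i => U (e i) j y with hu
  -- module linearity
  have hmod : ∀ (b : C₀(X, ℂ)) (i j : Fin n) (y : Y),
      U (fun k => if k = i then b else 0) j y = b (g y) * u y j i := by
    intro b i j y
    set v : Fin n → C₀(X, ℂ) := fun k => if k = i then b else 0 with hv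
    set ζ : Fin n → C₀(Y, ℂ) := fun j => U v j - ρ b * U (e i) j with hζ
    have horth : ∀ η : Fin n → C₀(X, ℂ), ∑ j, star (ζ j) * U η j = 0 := by
      intro η
      have h1 := hinner v η
      have h2 := hinner (e i) η
      have h3 : ∑ i, star (v i) * η i = star b * η i := by
        rw [Finset.sum_eq_single i]
        · simp [hv]
        · intro k _ hk; simp [hv, hk]
        · intro hk; exact absurd (Finset.mem_univ _) hk
      have h4 : ∑ k, star (e i k) * η k = star (one0 X) * η i := by
        rw [Finset.sum_eq_single i]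
        · simp [he]
        · intro k _ hk; simp [he, hk]
        · intro hk; exact absurd (Finset.mem_univ _) hk
      have h5 : star (one0 X) * η i = η i := by
        ext x; simp [one0_apply]
      rw [h3] at h1
      rw [h4, h5] at h2
      have h6 : ∀ j, star (ζ j) * U η j = star (U v j) * U η j -
          star (ρ b) * (star (U (e i) j) * U η j) := by
        intro j
        ext z
        show (starRingEnd ℂ) (U v j z - ρ b z * U (e i) j z) * U η j z =
          (starRingEnd ℂ) (U v j z) * U η j z -
            (starRingEnd ℂ) (ρ b z) * ((starRingEnd ℂ) (U (e i) j z) * U η j z)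
        rw [map_sub, map_mul]
        ring
      simp_rw [h6]
      rw [Finset.sum_sub_distrib, h1, ← Finset.mul_sum, h2, map_mul, ← map_star, sub_self]
    obtain ⟨η, hη⟩ := hsurj ζ
    have h7 := horth η
    rw [hη] at h7
    have h8 := congrArg (fun f : C₀(Y, ℂ) => f y) h7
    have h9 : ∑ j, (starRingEnd ℂ) (ζ j y) * ζ j y = 0 := by
      have : (∑ j, star (ζ j) * ζ j : C₀(Y, ℂ)) y = ∑ j, (starRingEnd ℂ) (ζ j y) * ζ j y := by
        have := map_sum (⟨⟨fun f : C₀(Y, ℂ) => f y, rfl⟩, fun _ _ => rfl⟩ : C₀(Y, ℂ) →+ ℂ)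
          (fun j => star (ζ j) * ζ j) Finset.univ
        exact this
      rw [← this]
      exact h8
    have h10 : ∀ j, (starRingEnd ℂ) (ζ j y) * ζ j y = ((‖ζ j y‖ ^ 2 : ℝ) : ℂ) := by
      intro j
      rw [Complex.conj_mul']
      push_cast
      rfl
    simp_rw [h10] at h9
    have h11 : ∑ j, ‖ζ j y‖ ^ 2 = 0 := by exact_mod_cast h9
    have h12 := (Finset.sum_eq_zero_iff_of_nonneg (fun j _ => sq_nonneg ‖ζ j y‖)).mp h11 j
      (Finset.mem_univ j)
    have h13 : ζ j y = 0 := by
      have : ‖ζ j y‖ = 0 := by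
        simpa using h12
      exact norm_eq_zero.mp this
    have h14 : U v j y - (ρ b) y * U (e i) j y = 0 := h13
    rw [hg y b] at h14
    show U v j y = b (g y) * U (e i) j y
    linear_combination h14
  refine ⟨g, u, ?_, ?_, ?_⟩
  · apply continuous_matrix
    intro j i
    exact (U (e i) j).continuous
  · intro y
    -- orthonormal columns
    have hU : (u y).conjTranspose * u y = 1 := by
      ext i i'
      rw [Matrix.mul_apply, Matrix.one_apply]
      have h1 := congrArg (fun f : C₀(Y, ℂ) => f y) (hinner (e i) (e i'))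
      have h2 : (∑ j, star (U (e i) j) * U (e i') j : C₀(Y, ℂ)) y =
          ∑ j, (starRingEnd ℂ) (U (e i) j y) * U (e i') j y := by
        have := map_sum (⟨⟨fun f : C₀(Y, ℂ) => f y, rfl⟩, fun _ _ => rfl⟩ : C₀(Y, ℂ) →+ ℂ)
          (fun j => star (U (e i) j) * U (e i') j) Finset.univ
        exact this
      have h3 : (∑ k, star (e i k) * e i' k) = if i = i' then one0 X else 0 := by
        rw [Finset.sum_eq_single i]
        · by_cases h : i = i'
          · subst h
            ext x; simp [he, one0_apply]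
          · simp [he, h]
        · intro k _ hk; simp [he, hk]
        · intro hk; exact absurd (Finset.mem_univ _) hk
      rw [h3] at h1
      have h5 : ∑ j, (starRingEnd ℂ) (U (e i) j y) * U (e i') j y =
        (ρ (if i = i' then one0 X else 0)) y := by rw [← h2]; exact h1
      rw [hg] at h5
      have h4 : (if i = i' then one0 X else 0 : C₀(X, ℂ)) (g y) = if i = i' then 1 else 0 := by
        by_cases h : i = i'
        · rw [if_pos h, if_pos h]; rfl
        · rw [if_neg h, if_neg h]; rfl
      rw [h4] at h5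
      exact h5
    intro h0
    have := congrArg Matrix.det hU
    rw [Matrix.det_mul, h0, mul_zero, Matrix.det_one] at this
    exact zero_ne_one this
  · intro y i j hne
    apply separate
    intro a
    have h1 := congrArg (fun f : C₀(Y, ℂ) => f y) (hact a (e i) j)
    have h2 : (fun k => a.comp (σ k) * e i k) = fun k => if k = i then a.comp (σ i) else 0 := by
      funext k
      by_cases h : k = i
      · subst h
        ext x; simp [he, one0_apply]
      · simp [he, h]
    rw [h2] at h1
    have h3 : ((ρ a).comp (τ j) * U (e i) j : C₀(Y, ℂ)) y = a (g (τ j y)) * u y j i := by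
      show (ρ a) (τ j y) * U (e i) j y = _
      rw [hg]
      rfl
    have h4 : (a.comp (σ i)) (g y) = a (σ i (g y)) := rfl
    have h5 : (a.comp (σ i)) (g y) * u y j i = a (g (τ j y)) * u y j i := by
      rw [← hmod, ← h3]; exact h1
    rw [h4] at h5
    exact mul_right_cancel₀ hne h5

end Pool.Agent.H57.DK
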