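import Mathlib

open Set Topology

namespace Pool.Agent.H57.DK

variable {E : Type*} [NormedAddCommGroup E] [NormedSpace ℝ E]

lemma convex_lift {S : Set E} (hS : Convex ℝ S) (hne : S.Nonempty) {g : E → ℂ}
    (hg : ContinuousOn g S) (h0 : ∀ x ∈ S, g x ≠ 0) :
    ∃ f : E → ℂ, ContinuousOn f S ∧ ∀ x ∈ S, Complex.exp (f x) = g x := by
  classical
  have := hS.contractibleSpace hne
  have := hS.locallyPathConnectedSpace
  obtain ⟨x₀, hx₀⟩ := hne
  have hcov := Complex.isCoveringMapOn_exp
  obtain ⟨F, ⟨-, hF⟩, -⟩ := hcov.existsUnique_continuousMap_lifts (A := S)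
    ⟨fun x => g x, continuousOn_iff_continuous_domRestrict.mp hg⟩ (a₀ := ⟨x₀, hx₀⟩)
    (Complex.exp_log (h0 x₀ hx₀)) (fun a => h0 a a.2)
  refine ⟨fun x => if hx : x ∈ S then F ⟨x, hx⟩ else 0, ?_, ?_⟩
  · rw [continuousOn_iff_continuous_domRestrict]
    convert F.continuous using 1
    ext z
    simp
  · intro x hx
    simp only [hx, dif_pos]
    exact congrFun hF ⟨x, hx⟩

lemma const_lift {S : Set E} (hS : Convex ℝ S) {c : E → ℂ} (hc : ContinuousOn c S) {a : ℂ}
    (h : ∀ x ∈ S, Complex.exp (c x) = a) {x y : E} (hx : x ∈ S) (hy : y ∈ S) : c x = c y := by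
  have : PreconnectedSpace S := isPreconnected_iff_preconnectedSpace.mp hS.isPreconnected
  have hcov := Complex.isCoveringMap_exp
  have hcont : Continuous (fun z : S => c z) := continuousOn_iff_continuous_domRestrict.mp hc
  exact hcov.isSeparatedMap.const_of_comp hcov.isLocalHomeomorph.isLocallyInjective hcont
    (fun u v => Subtype.ext (by
      show Complex.exp (c u) = Complex.exp (c v)
      rw [h u u.2, h v v.2])) ⟨x, hx⟩ ⟨y, hy⟩

end Pool.Agent.H57.DK
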